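import Pool.Agent.X38.Cub.Prob

set_option autoImplicit false

open MeasureTheory ProbabilityTheory Filter Topology
open Pool.Agent.X38.Cub

namespace Pool.Agent.Results.MP_422525_pr.TorsionAboveThreshold

/-- For the random cubical complex `Q₂(n,p)` (law `law n p` on the sets of squares of the `n`-cube):
for every fixed `p` with `0 < p < 1 - (1/2)^(1/6)` the fundamental group (edge path group `Pi1`) has
a nontrivial element of finite order with probability tending to `1`.  Hence it is false that the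
fundamental group is torsion free w.h.p. for all fixed `p` with `1 - (1/2)^(1/40) < p ≤ 1`. -/
theorem result :
    (∀ p : ℝ, 0 < p → p < 1 - (1 / 2 : ℝ) ^ (1 / 6 : ℝ) →
      Tendsto (fun n : ℕ => law n p {ω | HasTorsion ω}) atTop (𝓝 1)) ∧
    ¬ (∀ p : ℝ, 1 - (1 / 2 : ℝ) ^ (1 / 40 : ℝ) < p → p ≤ 1 →
      Tendsto (fun n : ℕ => law n p {ω | ¬ HasTorsion ω}) atTop (𝓝 1)) := by
  have main : ∀ p : ℝ, 0 < p → p < 1 - (1 / 2 : ℝ) ^ (1 / 6 : ℝ) →
      Tendsto (fun n : ℕ => law n p {ω | HasTorsion ω}) atTop (𝓝 1) := by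
    intro p h0 h1
    have hr : (0 : ℝ) < (1 / 2 : ℝ) ^ (1 / 6 : ℝ) := by positivity
    have hp1 : p ≤ 1 := by linarith
    have h := torsion_whp h0 h1
    have e : ∀ n : ℕ, law n p {ω | HasTorsion ω} = 1 - law n p {ω | ¬ HasTorsion ω} := by
      intro n
      have := coin_prob h0.le hp1
      have h2 : {ω : Sq n → Bool | HasTorsion ω} = {ω | ¬ HasTorsion ω}ᶜ := by
        ext ω; simp
      rw [h2]
      unfold law
      rw [prob_compl_eq_one_sub (Set.toFinite _).measurableSet]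
    simp only [e]
    have h3 := ENNReal.Tendsto.sub (tendsto_const_nhds (x := (1 : ENNReal)) (f := atTop)) h
      (Or.inl ENNReal.one_ne_top)
    simpa using h3
  refine ⟨main, fun hall => ?_⟩
  have hlt : (1 / 2 : ℝ) ^ (1 / 6 : ℝ) < (1 / 2 : ℝ) ^ (1 / 40 : ℝ) :=
    Real.rpow_lt_rpow_of_exponent_gt (by norm_num) (by norm_num) (by norm_num)
  have h40 : (1 / 2 : ℝ) ^ (1 / 40 : ℝ) ≤ 1 :=
    Real.rpow_le_one (by norm_num) (by norm_num) (by norm_num)
  have hr : (0 : ℝ) < (1 / 2 : ℝ) ^ (1 / 6 : ℝ) := by positivity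
  obtain ⟨p, hp1, hp2⟩ : ∃ p : ℝ, 1 - (1 / 2 : ℝ) ^ (1 / 40 : ℝ) < p ∧
      p < 1 - (1 / 2 : ℝ) ^ (1 / 6 : ℝ) :=
    exists_between (by linarith)
  have hp0 : 0 < p := by linarith
  have hple : p ≤ 1 := by linarith
  have a := torsion_whp hp0 hp2
  have b := hall p hp1 hple
  exact zero_ne_one (tendsto_nhds_unique a b)

end Pool.Agent.Results.MP_422525_pr.TorsionAboveThreshold
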